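import Pool.Agent.N14.CE.ModE

/-! # Project CE, part MOD -/

set_option autoImplicit false

namespace Pool.Agent.N14.CE

open Pool.Agent.N513.CE

noncomputable section

/-- the coefficient ring -/
abbrev CC (p : ℕ) : Type := ∀ n : ℕ, ZMod (2 * p * n + 1)

/-- the inverse of `p` -/
def bb (p : ℕ) : CC p := fun n => -((2 * n : ℕ) : ZMod (2 * p * n + 1))

/-- the inverse of `2` -/
def tt (p : ℕ) : CC p := fun n => ((p * n + 1 : ℕ) : ZMod (2 * p * n + 1))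

theorem bb_spec (p : ℕ) : (p : CC p) * bb p = 1 := by
  funext n
  show (p : ZMod (2 * p * n + 1)) * -((2 * n : ℕ) : ZMod (2 * p * n + 1)) = 1
  have h : ((2 * p * n + 1 : ℕ) : ZMod (2 * p * n + 1)) = 0 := ZMod.natCast_self _
  push_cast at h ⊢
  linear_combination -h

theorem tt_spec (p : ℕ) : tt p + tt p = 1 := by
  funext n
  show ((p * n + 1 : ℕ) : ZMod (2 * p * n + 1)) + ((p * n + 1 : ℕ) : ZMod (2 * p * n + 1)) = 1
  have h : ((2 * p * n + 1 : ℕ) : ZMod (2 * p * n + 1)) = 0 := ZMod.natCast_self _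
  push_cast at h ⊢
  linear_combination h

theorem cc_inj {p : ℕ} (hp : 0 < p) : Function.Injective (Int.cast : ℤ → CC p) := by
  intro a b hab
  have h1 : ∀ n : ℕ, ((2 * p * n + 1 : ℕ) : ℤ) ∣ a - b := by
    intro n
    have h2 : ((a : ℤ) : ZMod (2 * p * n + 1)) = ((b : ℤ) : ZMod (2 * p * n + 1)) :=
      congrFun hab n
    rw [← ZMod.intCast_zmod_eq_zero_iff_dvd, Int.cast_sub, h2, sub_self]
  by_contra hne
  have h3 : a - b ≠ 0 := sub_ne_zero.2 hne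
  have h4 := Int.natAbs_dvd_natAbs.2 (h1 (a - b).natAbs)
  have h5 : (a - b).natAbs ≠ 0 := Int.natAbs_ne_zero.2 h3
  have h6 := Nat.le_of_dvd (Nat.pos_of_ne_zero h5) h4
  rw [Int.natAbs_natCast] at h6
  nlinarith [Nat.pos_of_ne_zero h5]

theorem t_MOD (h1 : S_STR) (h2 : S_LRF) : S_MOD := by
  classical
  intro G _ K S p hRF hFG hp hp2 hS hK
  let eqv : Fin 2 × S ≃ Fin (2 * S.card) :=
    ((Equiv.refl (Fin 2)).prodCongr S.equivFin).trans finProdFinEquiv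
  have hγ : ∀ x : CC p, x ≠ 0 → ∃ i, Pi.evalRingHom (fun n : ℕ => ZMod (2 * p * n + 1)) i x ≠ 0 :=
    fun x hx => Function.ne_iff.1 hx
  have hSK : ∀ k ∈ S, k ∈ K := by
    intro k hk
    rw [← hK]
    exact Subgroup.subset_closure hk
  obtain ⟨D, L, iD, iL, ρ, w, c, i, e1, e2, e3, e4, e5, e6, e7, e8, e9⟩ :=
    mod_abs h1 h2 (cc_inj hp.pos) (Pi.evalRingHom (fun n : ℕ => ZMod (2 * p * n + 1))) hγ K p
      (bb p) (tt p) (bb_spec p) (tt_spec p) hRF hFG (2 * S.card)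
      (fun i => ((eqv.symm i).2 : G)) (fun i => (eqv.symm i).1)
      (fun i => hS _ (eqv.symm i).2.2) (fun i => hSK _ (eqv.symm i).2.2)
  refine ⟨D, L, iD, iL, ρ, w, c, i, e1, e2, e3, e4, e5, e6, ?_, e8, e9⟩
  intro k hk
  refine e7 k ⟨eqv (0, ⟨k, hk⟩), ?_, ?_⟩ ⟨eqv (1, ⟨k, hk⟩), ?_, ?_⟩ <;>
    simp only [Equiv.symm_apply_apply]

end

end Pool.Agent.N14.CE
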