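import Pool.Agent.N513.CE.Stm2

/-! # Project CE, part MOD: the sums over cosets, the parity and the lattice -/

set_option autoImplicit false

namespace Pool.Agent.N14.CE

open Pool.Agent.N513.CE

noncomputable section

open Classical in
/-- the sum of the coefficients over a coset -/
def sg {C G : Type} [CommRing C] [Group G] (K : Subgroup G) (v : G ⧸ K) :
    MonoidAlgebra C G →+ C :=
  (Finsupp.liftAddHom fun g : G => if (g : G ⧸ K) = v then AddMonoidHom.id C else 0).comp
    (MonoidAlgebra.coeffAddEquiv (R := C) (M := G)).toAddMonoidHom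

section sgs

variable {C G : Type} [CommRing C] [Group G] {K : Subgroup G}

open Classical in
theorem sg_single (v : G ⧸ K) (g : G) (c : C) :
    sg K v (MonoidAlgebra.single g c) = if (g : G ⧸ K) = v then c else 0 := by
  show (Finsupp.liftAddHom fun g : G => if (g : G ⧸ K) = v then AddMonoidHom.id C else 0)
    (Finsupp.single g c) = _
  rw [Finsupp.liftAddHom_apply_single]
  split_ifs <;> rfl

theorem sg_left (v : G ⧸ K) (g : G) (x : MonoidAlgebra C G) :
    sg K (g • v) (MonoidAlgebra.of C G g * x) = sg K v x := by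
  classical
  induction x using MonoidAlgebra.induction_linear with
  | zero => rw [mul_zero, map_zero, map_zero]
  | add x y hx hy => rw [mul_add, map_add, map_add, hx, hy]
  | single h c =>
    rw [MonoidAlgebra.of_apply, MonoidAlgebra.single_mul_single, one_mul, sg_single, sg_single]
    have h1 : ((g * h : G) : G ⧸ K) = g • (h : G ⧸ K) := rfl
    rw [h1]
    simp only [smul_left_cancel_iff]

theorem sg_right (v : G ⧸ K) {k : G} (hk : k ∈ K) (x : MonoidAlgebra C G) :
    sg K v (x * MonoidAlgebra.of C G k) = sg K v x := by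
  classical
  induction x using MonoidAlgebra.induction_linear with
  | zero => rw [zero_mul]
  | add x y hx hy => rw [add_mul, map_add, map_add, hx, hy]
  | single h c =>
    rw [MonoidAlgebra.of_apply, MonoidAlgebra.single_mul_single, mul_one, sg_single, sg_single]
    have h1 : ((h * k : G) : G ⧸ K) = (h : G ⧸ K) := by
      rw [QuotientGroup.eq]
      simpa using K.inv_mem hk
    rw [h1]

theorem sg_algebraMap (v : G ⧸ K) (c : C) (x : MonoidAlgebra C G) :
    sg K v (algebraMap C (MonoidAlgebra C G) c * x) = c * sg K v x := by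
  classical
  induction x using MonoidAlgebra.induction_linear with
  | zero => rw [mul_zero, map_zero, mul_zero]
  | add x y hx hy => rw [mul_add, map_add, map_add, hx, hy, mul_add]
  | single h d =>
    have h1 : algebraMap C (MonoidAlgebra C G) c = MonoidAlgebra.single 1 c := rfl
    rw [h1, MonoidAlgebra.single_mul_single, one_mul, sg_single, sg_single]
    split_ifs <;> simp

/-- the idempotent attached to an element of order `p` -/
def idem (C : Type) {G : Type} [CommRing C] [Group G] (p : ℕ) (b : C) (k : G) :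
    MonoidAlgebra C G :=
  1 - algebraMap C (MonoidAlgebra C G) b * ∑ i ∈ Finset.range p, MonoidAlgebra.of C G (k ^ i)

theorem sg_idem (v : G ⧸ K) {p : ℕ} {b : C} (hb : (p : C) * b = 1) {k : G} (hk : k ∈ K)
    (x : MonoidAlgebra C G) : sg K v (x * idem C p b k) = 0 := by
  unfold idem
  rw [mul_sub, mul_one, map_sub, ← mul_assoc, ← Algebra.commutes, mul_assoc, sg_algebraMap,
    Finset.mul_sum, map_sum]
  have h1 : ∀ i ∈ Finset.range p, sg K v (x * MonoidAlgebra.of C G (k ^ i)) = sg K v x :=
    fun i _ => sg_right v (K.pow_mem hk i) x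
  rw [Finset.sum_congr rfl h1, Finset.sum_const, Finset.card_range, nsmul_eq_mul, ← mul_assoc,
    mul_comm b, hb, one_mul, sub_self]

theorem pow_sum {p : ℕ} {k : G} (hk : k ^ p = 1) :
    MonoidAlgebra.of C G k * ∑ i ∈ Finset.range p, MonoidAlgebra.of C G (k ^ i) =
      ∑ i ∈ Finset.range p, MonoidAlgebra.of C G (k ^ i) := by
  rw [Finset.mul_sum]
  have h1 : ∀ i ∈ Finset.range p, MonoidAlgebra.of C G k * MonoidAlgebra.of C G (k ^ i) =
      MonoidAlgebra.of C G (k ^ (i + 1)) := by
    intro i _
    rw [← map_mul, ← pow_succ']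
  rw [Finset.sum_congr rfl h1]
  have h2 := Finset.sum_range_succ (fun i => MonoidAlgebra.of C G (k ^ i)) p
  have h3 := Finset.sum_range_succ' (fun i => MonoidAlgebra.of C G (k ^ i)) p
  simp only [hk, pow_zero] at h2 h3
  rw [h2] at h3
  exact (add_right_cancel h3).symm

theorem sub_mul_idem {p : ℕ} (b : C) {k : G} (hk : k ^ p = 1) :
    (MonoidAlgebra.of C G k - 1) * idem C p b k = MonoidAlgebra.of C G k - 1 := by
  unfold idem
  have h1 : (MonoidAlgebra.of C G k - 1) *
      (algebraMap C (MonoidAlgebra C G) b * ∑ i ∈ Finset.range p, MonoidAlgebra.of C G (k ^ i)) =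
      0 := by
    rw [← mul_assoc, ← Algebra.commutes, mul_assoc, sub_mul, pow_sum hk, one_mul, sub_self,
      mul_zero]
  rw [mul_sub, mul_one, h1, sub_zero]

theorem idem_mul_idem {p : ℕ} {b : C} (hb : (p : C) * b = 1) {k : G}
    (hk : k ^ p = 1) : idem C p b k * idem C p b k = idem C p b k := by
  have hpow : ∀ i, MonoidAlgebra.of C G (k ^ i) *
      ∑ i ∈ Finset.range p, MonoidAlgebra.of C G (k ^ i) =
      ∑ i ∈ Finset.range p, MonoidAlgebra.of C G (k ^ i) := by
    intro i
    induction i with
    | zero => rw [pow_zero, map_one, one_mul]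
    | succ i ih => rw [pow_succ, map_mul, mul_assoc, pow_sum hk, ih]
  have h2 : (∑ i ∈ Finset.range p, MonoidAlgebra.of C G (k ^ i)) *
      ∑ i ∈ Finset.range p, MonoidAlgebra.of C G (k ^ i) =
      algebraMap C (MonoidAlgebra C G) p * ∑ i ∈ Finset.range p, MonoidAlgebra.of C G (k ^ i) := by
    rw [Finset.sum_mul, Finset.sum_congr rfl (fun i _ => hpow i), Finset.sum_const,
      Finset.card_range, nsmul_eq_mul, map_natCast]
  have h3 : (algebraMap C (MonoidAlgebra C G) b *
      ∑ i ∈ Finset.range p, MonoidAlgebra.of C G (k ^ i)) * idem C p b k = 0 := by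
    unfold idem
    rw [mul_sub, mul_one, ← mul_assoc (_ * _), mul_assoc (algebraMap C _ b),
      ← Algebra.commutes, ← mul_assoc, mul_assoc, h2, ← mul_assoc, ← map_mul, ← map_mul,
      mul_assoc b b, mul_comm b (p : C), hb, mul_one, sub_self]
  have h4 : idem C p b k * idem C p b k = (1 - algebraMap C (MonoidAlgebra C G) b *
      ∑ i ∈ Finset.range p, MonoidAlgebra.of C G (k ^ i)) * idem C p b k := rfl
  rw [h4, sub_mul, one_mul, h3, sub_zero]

end sgs

/-! ### the parity -/

open Classical in
/-- the integer modulo 2 -/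
def par {C : Type} [CommRing C] (c : C) : ZMod 2 :=
  if h : ∃ n : ℤ, (n : C) = c then ((Classical.choose h : ℤ) : ZMod 2) else 0

section pars

variable {C : Type} [CommRing C]

theorem par_int (hC : Function.Injective (Int.cast : ℤ → C)) (n : ℤ) : par (n : C) = n := by
  unfold par
  have h : ∃ m : ℤ, (m : C) = (n : C) := ⟨n, rfl⟩
  rw [dif_pos h]
  congr 1
  exact hC (Classical.choose_spec h)

end pars

/-! ### the lattice -/

/-- the lattice -/
def LM (C : Type) {G : Type} [CommRing C] [Group G] (K : Subgroup G) :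
    AddSubgroup (MonoidAlgebra C G × MonoidAlgebra C G) where
  carrier := {x | ∀ v : G ⧸ K, ∃ n : ℤ, (n : C) = sg K v x.1}
  zero_mem' := fun v => ⟨0, by simp⟩
  add_mem' := by
    intro x y hx hy v
    obtain ⟨n, hn⟩ := hx v
    obtain ⟨m, hm⟩ := hy v
    exact ⟨n + m, by rw [Int.cast_add, hn, hm, Prod.fst_add, map_add]⟩
  neg_mem' := by
    intro x hx v
    obtain ⟨n, hn⟩ := hx v
    exact ⟨-n, by rw [Int.cast_neg, hn, Prod.fst_neg, map_neg]⟩

section lms

variable {C G : Type} [CommRing C] [Group G] {K : Subgroup G}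

/-- the parity of the sum over a coset -/
def lam (hC : Function.Injective (Int.cast : ℤ → C)) (v : G ⧸ K) : LM C K →+ ZMod 2 where
  toFun l := par (sg K v l.1.1)
  map_zero' := by
    have h := par_int hC 0
    rw [Int.cast_zero, Int.cast_zero] at h
    show par (sg K v 0) = 0
    rw [map_zero, h]
  map_add' := by
    intro x y
    obtain ⟨n, hn⟩ := x.2 v
    obtain ⟨m, hm⟩ := y.2 v
    show par (sg K v (x.1.1 + y.1.1)) = par (sg K v x.1.1) + par (sg K v y.1.1)
    rw [map_add, ← hn, ← hm, ← Int.cast_add, par_int hC, par_int hC, par_int hC, Int.cast_add]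

/-- left multiplication -/
def mL (g : G) : LM C K →+ LM C K where
  toFun l := ⟨(MonoidAlgebra.of C G g * l.1.1, MonoidAlgebra.of C G g * l.1.2), by
    intro v
    obtain ⟨n, hn⟩ := l.2 (g⁻¹ • v)
    refine ⟨n, ?_⟩
    rw [hn, ← sg_left (g⁻¹ • v) g, smul_inv_smul]⟩
  map_zero' := by
    apply Subtype.ext
    show (_ * 0, _ * 0) = (0, 0)
    rw [mul_zero]
  map_add' := by
    intro x y
    apply Subtype.ext
    show (_ * (x.1.1 + y.1.1), _ * (x.1.2 + y.1.2)) = (_ * x.1.1 + _ * y.1.1, _ * x.1.2 + _ * y.1.2)
    rw [mul_add, mul_add]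

theorem mL_one (l : LM C K) : mL 1 l = l := by
  apply Subtype.ext
  show (_ * l.1.1, _ * l.1.2) = l.1
  rw [map_one, one_mul, one_mul]

theorem mL_mul (g h : G) (l : LM C K) : mL (g * h) l = mL g (mL h l) := by
  apply Subtype.ext
  show (_ * l.1.1, _ * l.1.2) = (_ * (_ * l.1.1), _ * (_ * l.1.2))
  rw [map_mul, mul_assoc, mul_assoc]

theorem lam_mL (hC : Function.Injective (Int.cast : ℤ → C)) (g : G) (v : G ⧸ K) (l : LM C K) :
    lam hC (g • v) (mL g l) = lam hC v l := by
  show par (sg K (g • v) (MonoidAlgebra.of C G g * l.1.1)) = par (sg K v l.1.1)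
  rw [sg_left]

/-- the pairing of the lamps with the parities -/
def prg (K : Subgroup G) (hC : Function.Injective (Int.cast : ℤ → C)) :
    (G →₀ ZMod 2) →+ (LM C K →+ ZMod 2) :=
  Finsupp.liftAddHom fun u =>
    { toFun := fun c => (AddMonoidHom.mulLeft c).comp (lam hC (u : G ⧸ K))
      map_zero' := by
        ext l
        exact zero_mul _
      map_add' := by
        intro a b
        ext l
        exact add_mul _ _ _ }

theorem prg_single (hC : Function.Injective (Int.cast : ℤ → C)) (u : G) (c : ZMod 2)
    (l : LM C K) : prg K hC (Finsupp.single u c) l = c * lam hC (u : G ⧸ K) l := by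
  unfold prg
  rw [Finsupp.liftAddHom_apply_single]
  rfl

theorem prg_shift (hC : Function.Injective (Int.cast : ℤ → C)) (g : G) (φ : G →₀ ZMod 2)
    (l : LM C K) :
    prg K hC (Finsupp.equivMapDomain (Equiv.mulLeft g) φ) (mL g l) = prg K hC φ l := by
  induction φ using Finsupp.induction_linear with
  | zero => rw [Finsupp.equivMapDomain_zero, map_zero]; rfl
  | add f1 f2 h1 h2 =>
    have e : Finsupp.equivMapDomain (Equiv.mulLeft g) (f1 + f2) =
        Finsupp.equivMapDomain (Equiv.mulLeft g) f1 + Finsupp.equivMapDomain (Equiv.mulLeft g) f2 := by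
      ext x
      rfl
    rw [e, map_add, map_add, AddMonoidHom.add_apply, AddMonoidHom.add_apply, h1, h2]
  | single u c =>
    rw [Finsupp.equivMapDomain_single, prg_single, prg_single]
    congr 1
    exact lam_mL hC g (u : G ⧸ K) l

/-- the action of the lamplighter group -/
def rLL (K : Subgroup G) (hC : Function.Injective (Int.cast : ℤ → C)) :
    LL G →* AddMonoid.End (LM C K × ZMod 2) where
  toFun s :=
    { toFun := fun x => (mL s.right x.1, x.2 + prg K hC s.left.toAdd (mL s.right x.1))
      map_zero' := by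
        ext1
        · exact map_zero _
        · show 0 + prg K hC s.left.toAdd (mL s.right 0) = 0
          rw [map_zero, map_zero, add_zero]
      map_add' := by
        intro x y
        ext1
        · exact map_add _ _ _
        · show x.2 + y.2 + prg K hC s.left.toAdd (mL s.right (x.1 + y.1)) =
            x.2 + prg K hC s.left.toAdd (mL s.right x.1) +
              (y.2 + prg K hC s.left.toAdd (mL s.right y.1))
          rw [map_add, map_add]
          abel }
  map_one' := by
    refine AddMonoidHom.ext fun x => ?_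
    ext1
    · exact mL_one x.1
    · show x.2 + prg K hC 0 _ = x.2
      rw [map_zero, AddMonoidHom.zero_apply, add_zero]
  map_mul' := by
    intro s s'
    refine AddMonoidHom.ext fun x => ?_
    ext1
    · exact mL_mul s.right s'.right x.1
    · show x.2 + prg K hC (s.left.toAdd +
          Finsupp.equivMapDomain (Equiv.mulLeft s.right) s'.left.toAdd) (mL (s.right * s'.right) x.1)
        = x.2 + prg K hC s'.left.toAdd (mL s'.right x.1) +
          prg K hC s.left.toAdd (mL s.right (mL s'.right x.1))
      rw [mL_mul, map_add, AddMonoidHom.add_apply, prg_shift]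
      abel

end lms

end

end Pool.Agent.N14.CE
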