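import Pool.Agent.N14.CE.ModA

/-! # Project CE, part MOD: the module -/

set_option autoImplicit false

namespace Pool.Agent.N14.CE

open Pool.Agent.N513.CE

noncomputable section

/-- the group of automorphisms -/
abbrev AU (L : Type) [AddCommGroup L] := (AddMonoid.End L)ˣ

/-- automorphisms as units -/
def toU {L : Type} [AddCommGroup L] (u : L ≃+ L) : AU L where
  val := u.toAddMonoidHom
  inv := u.symm.toAddMonoidHom
  val_inv := AddMonoidHom.ext fun x => u.apply_symm_apply x
  inv_val := AddMonoidHom.ext fun x => u.symm_apply_apply x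

/-- automorphisms as endomorphisms -/
def autE (L M : Type) [AddCommGroup L] [AddCommGroup M] : AU L →* AddMonoid.End (L × M) where
  toFun u := AddMonoidHom.prodMap (u : AddMonoid.End L) (AddMonoidHom.id M)
  map_one' := rfl
  map_mul' _ _ := rfl

/-- automorphisms as endomorphisms -/
def autF (L : Type) [AddCommGroup L] : AU L →* AddMonoid.End L := Units.coeHom _

theorem inter {α L E : Type} [AddCommGroup L] [AddCommGroup E] (φ : FreeGroup α →* AU L)
    (ψ : FreeGroup α →* AU E) (f : L →+ E)
    (h : ∀ i l, f ((φ (FreeGroup.of i) : AddMonoid.End L) l) =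
      (ψ (FreeGroup.of i) : AddMonoid.End E) (f l)) (w : FreeGroup α) :
    ∀ l, f ((φ w : AddMonoid.End L) l) = (ψ w : AddMonoid.End E) (f l) := by
  induction w using FreeGroup.induction_on with
  | C1 => intro l; rw [map_one, map_one]; rfl
  | of i => exact h i
  | inv_of i _ =>
    intro l
    have h1 := h i (((φ (FreeGroup.of i)⁻¹ : AU L) : AddMonoid.End L) l)
    have h2 : (φ (FreeGroup.of i) : AddMonoid.End L)
        (((φ (FreeGroup.of i)⁻¹ : AU L) : AddMonoid.End L) l) = l := by
      have h3 : (φ (FreeGroup.of i)) * φ (FreeGroup.of i)⁻¹ = 1 := by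
        rw [← map_mul, mul_inv_cancel, map_one]
      exact congrArg (fun u : AU L => (u : AddMonoid.End L) l) h3
    rw [h2] at h1
    rw [h1]
    have h3 : ψ (FreeGroup.of i)⁻¹ * (ψ (FreeGroup.of i)) = 1 := by
      rw [← map_mul, inv_mul_cancel, map_one]
    exact (congrArg (fun u : AU E => (u : AddMonoid.End E)
      (f (((φ (FreeGroup.of i)⁻¹ : AU L) : AddMonoid.End L) l))) h3).symm
  | mul x y hx hy =>
    intro l
    rw [map_mul, map_mul]
    show f ((φ x : AddMonoid.End L) ((φ y : AddMonoid.End L) l)) =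
      (ψ x : AddMonoid.End E) ((ψ y : AddMonoid.End E) (f l))
    rw [hx, hy]

section rest

variable {C G : Type} [CommRing C] [Group G] {K : Subgroup G}

/-- restriction of an automorphism to the lattice -/
def res (A : (MonoidAlgebra C G × MonoidAlgebra C G) ≃+ (MonoidAlgebra C G × MonoidAlgebra C G))
    (hA : ∀ x (v : G ⧸ K), sg K v (A x).1 = sg K v x.1) : LM C K ≃+ LM C K :=
  { toFun := fun l => ⟨A l.1, fun v => by rw [hA]; exact l.2 v⟩
    invFun := fun l => ⟨A.symm l.1, fun v => by
      have h := hA (A.symm l.1) v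
      rw [AddEquiv.apply_symm_apply] at h
      rw [← h]; exact l.2 v⟩
    left_inv := fun l => Subtype.ext (A.symm_apply_apply _)
    right_inv := fun l => Subtype.ext (A.apply_symm_apply _)
    map_add' := fun x y => Subtype.ext (map_add A x.1 y.1) }

theorem prg_congr (hC : Function.Injective (Int.cast : ℤ → C)) {l l' : LM C K}
    (h : ∀ v, lam hC v l = lam hC v l') (φ : G →₀ ZMod 2) :
    prg K hC φ l = prg K hC φ l' := by
  induction φ using Finsupp.induction_linear with
  | zero => rw [map_zero]; rfl
  | add f1 f2 h1 h2 => rw [map_add, AddMonoidHom.add_apply, AddMonoidHom.add_apply, h1, h2]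
  | single u c => rw [prg_single, prg_single, h]

/-- the family of the automorphisms commutes with the lamplighter group -/
theorem comm_LL (hC : Function.Injective (Int.cast : ℤ → C)) {n : ℕ}
    (B : Fin n → (LM C K ≃+ LM C K))
    (h1 : ∀ i g l, mL g (B i l) = B i (mL g l))
    (h2 : ∀ i v l, lam hC v (B i l) = lam hC v l) (s : LL G) (w : FreeGroup (Fin n)) :
    Commute (rLL K hC s)
      (((autE (LM C K) (ZMod 2)).comp (FreeGroup.lift fun i => toU (B i))) w) := by
  have e1 : ∀ g w l, mL g ((FreeGroup.lift (fun i => toU (B i)) w : AddMonoid.End (LM C K)) l) =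
      (FreeGroup.lift (fun i => toU (B i)) w : AddMonoid.End (LM C K)) (mL g l) := by
    intro g w l
    refine inter (FreeGroup.lift fun i => toU (B i)) (FreeGroup.lift fun i => toU (B i))
      (mL g) ?_ w l
    intro i l
    rw [FreeGroup.lift_apply_of]
    exact h1 i g l
  have e2 : ∀ v w l, lam hC v ((FreeGroup.lift (fun i => toU (B i)) w :
      AddMonoid.End (LM C K)) l) = lam hC v l := by
    intro v w l
    refine (inter (FreeGroup.lift fun i => toU (B i)) (1 : FreeGroup (Fin n) →* AU (ZMod 2))
      (lam hC v) ?_ w l).trans rfl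
    intro i l
    rw [FreeGroup.lift_apply_of]
    exact h2 i v l
  refine AddMonoidHom.ext fun x => ?_
  ext1
  · exact e1 s.right w x.1
  · show x.2 + prg K hC s.left.toAdd (mL s.right
        ((FreeGroup.lift (fun i => toU (B i)) w : AddMonoid.End (LM C K)) x.1)) =
      x.2 + prg K hC s.left.toAdd (mL s.right x.1)
    rw [e1, prg_congr hC (fun v => e2 v w _)]

/-- left multiplication on pairs -/
def mR (C G : Type) [CommRing C] [Group G] :
    G →* AddMonoid.End (MonoidAlgebra C G × MonoidAlgebra C G) where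
  toFun g :=
    { toFun := fun x => (MonoidAlgebra.of C G g * x.1, MonoidAlgebra.of C G g * x.2)
      map_zero' := by
        show (_ * 0, _ * 0) = (0, 0)
        rw [mul_zero]
      map_add' := by
        intro x y
        show (_ * (x.1 + y.1), _ * (x.2 + y.2)) = (_ * x.1 + _ * y.1, _ * x.2 + _ * y.2)
        rw [mul_add, mul_add] }
  map_one' := by
    refine AddMonoidHom.ext fun x => ?_
    show (_ * x.1, _ * x.2) = x
    rw [map_one, one_mul, one_mul]
  map_mul' g h := by
    refine AddMonoidHom.ext fun x => ?_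
    show (_ * x.1, _ * x.2) = (_ * (_ * x.1), _ * (_ * x.2))
    rw [map_mul, mul_assoc, mul_assoc]

theorem comm_R {n : ℕ}
    (B : Fin n → ((MonoidAlgebra C G × MonoidAlgebra C G) ≃+ (MonoidAlgebra C G × MonoidAlgebra C G)))
    (h1 : ∀ i g l, mR C G g (B i l) = B i (mR C G g l)) (g : G) (w : FreeGroup (Fin n)) :
    Commute (mR C G g) (((autF (MonoidAlgebra C G × MonoidAlgebra C G)).comp
      (FreeGroup.lift fun i => toU (B i))) w) := by
  refine AddMonoidHom.ext fun x => ?_
  refine inter (FreeGroup.lift fun i => toU (B i)) (FreeGroup.lift fun i => toU (B i))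
    (mR C G g) ?_ w x
  intro i l
  rw [FreeGroup.lift_apply_of]
  exact h1 i g l

end rest

/-- the automorphisms -/
structure Str (R : Type) [Ring R] (e t : R) (a g : (R × R) ≃+ (R × R)) : Prop where
  ha : ∀ x, a x = (x.1 * (1 - e) - x.2 * e, x.1 * e + x.2 * (1 - e - e))
  hg : ∀ x, g x = (x.1 * (1 + e), x.2 * (1 - e * t))

/-- one of the two automorphisms -/
def pick {R : Type} [Ring R] (a g : (R × R) ≃+ (R × R)) (j : Fin 2) : (R × R) ≃+ (R × R) :=
  if j = 0 then a else g

theorem pick_left {R : Type} [Ring R] {e t : R} {a g : (R × R) ≃+ (R × R)} (h : Str R e t a g)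
    (j : Fin 2) (r : R) (x : R × R) :
    pick a g j (r * x.1, r * x.2) = (r * (pick a g j x).1, r * (pick a g j x).2) := by
  unfold pick
  split_ifs
  · rw [h.ha, h.ha]
    simp only [mul_sub, mul_add, mul_assoc]
  · rw [h.hg, h.hg]
    simp only [mul_assoc]

theorem pick_map {R R' : Type} [Ring R] [Ring R'] (f : R →+* R') {e t : R}
    {a g : (R × R) ≃+ (R × R)} (h : Str R e t a g) {a' g' : (R' × R') ≃+ (R' × R')}
    (h' : Str R' (f e) (f t) a' g') (j : Fin 2) (x : R × R) :
    (f (pick a g j x).1, f (pick a g j x).2) = pick a' g' j (f x.1, f x.2) := by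
  unfold pick
  split_ifs
  · rw [h.ha, h'.ha]
    simp only [map_sub, map_mul, map_add, map_one]
  · rw [h.hg, h'.hg]
    simp only [map_sub, map_mul, map_add, map_one]

theorem pick_sg {C G : Type} [CommRing C] [Group G] {K : Subgroup G} {p : ℕ} {b : C}
    (hb : (p : C) * b = 1) {k : G} (hk : k ∈ K) {t : MonoidAlgebra C G}
    {a g : (MonoidAlgebra C G × MonoidAlgebra C G) ≃+ (MonoidAlgebra C G × MonoidAlgebra C G)}
    (h : Str _ (idem C p b k) t a g) (j : Fin 2) (x : MonoidAlgebra C G × MonoidAlgebra C G)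
    (v : G ⧸ K) : sg K v (pick a g j x).1 = sg K v x.1 := by
  unfold pick
  split_ifs
  · rw [h.ha]
    show sg K v (x.1 * (1 - idem C p b k) - x.2 * idem C p b k) = _
    rw [mul_sub, mul_one, map_sub, map_sub, sg_idem v hb hk, sg_idem v hb hk, sub_zero, sub_zero]
  · rw [h.hg]
    show sg K v (x.1 * (1 + idem C p b k)) = _
    rw [mul_add, mul_one, map_add, sg_idem v hb hk, add_zero]

/-- the coefficients of the image -/
theorem rmap_coeff {C C' D D' : Type} [CommRing C] [CommRing C'] [Group D] [Group D']
    (γ : C →+* C') (π : D →* D') (x : MonoidAlgebra C D)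
    (hπ : Set.InjOn π (x.coeff.support : Set D)) {d : D} (hd : d ∈ x.coeff.support) :
    (rmap γ π x).coeff (π d) = γ (x.coeff d) := by
  show (Finsupp.mapDomain π (MonoidAlgebra.mapRingHom D γ x).coeff) (π d) = _
  have hsub : ((MonoidAlgebra.mapRingHom D γ x).coeff.support : Set D) ⊆
      (x.coeff.support : Set D) := by
    intro g hg
    simp only [Finset.mem_coe, Finsupp.mem_support_iff] at hg ⊢
    intro h0
    apply hg
    rw [MonoidAlgebra.coeff_mapRingHom, h0, map_zero]
  rw [Finsupp.mapDomain_apply' _ _ hsub hπ hd, MonoidAlgebra.coeff_mapRingHom]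

end

end Pool.Agent.N14.CE
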