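import Pool.Agent.N14.CE.ModB

/-! # Project CE, part MOD: the representation -/

set_option autoImplicit false

namespace Pool.Agent.N14.CE

open Pool.Agent.N513.CE

noncomputable section

theorem zmod2 (x : ZMod 2) : x = 0 ∨ x = 1 := by
  revert x; decide

section rho

variable {C G : Type} [CommRing C] [Group G] {K : Subgroup G}

/-- the data: automorphisms of the lattice -/
structure Dt (C : Type) {G : Type} [CommRing C] [Group G] (K : Subgroup G)
    (hC : Function.Injective (Int.cast : ℤ → C)) (n : ℕ) where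
  B : Fin n → (LM C K ≃+ LM C K)
  h1 : ∀ i g l, mL g (B i l) = B i (mL g l)
  h2 : ∀ i v l, lam hC v (B i l) = lam hC v l

variable {hC : Function.Injective (Int.cast : ℤ → C)} {n : ℕ}

/-- the action of the free group -/
def rF (D : Dt C K hC n) : FreeGroup (Fin n) →* AddMonoid.End (LM C K × ZMod 2) :=
  (autE (LM C K) (ZMod 2)).comp (FreeGroup.lift fun i => toU (D.B i))

/-- the representation -/
def rho (D : Dt C K hC n) : LL G × FreeGroup (Fin n) →* AddMonoid.End (LM C K × ZMod 2) :=
  MonoidHom.noncommCoprod (rLL K hC) (rF D) (comm_LL hC D.B D.h1 D.h2)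

theorem rho_apply (D : Dt C K hC n) (s : LL G) (w : FreeGroup (Fin n)) (l : LM C K × ZMod 2) :
    rho D (s, w) l = rLL K hC s (rF D w l) := by
  unfold rho
  rw [MonoidHom.noncommCoprod_apply]
  rfl

theorem rLL_apply (s : LL G) (l : LM C K × ZMod 2) :
    rLL K hC s l = (mL s.right l.1, l.2 + prg K hC s.left.toAdd (mL s.right l.1)) := rfl

theorem rho_left (D : Dt C K hC n) (s : LL G) (l : LM C K × ZMod 2) :
    rho D (s, 1) l = (mL s.right l.1, l.2 + prg K hC s.left.toAdd (mL s.right l.1)) := by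
  rw [rho_apply, map_one, rLL_apply]
  rfl

theorem rF_apply (D : Dt C K hC n) (w : FreeGroup (Fin n)) (l : LM C K × ZMod 2) :
    rF D w l =
      ((FreeGroup.lift (fun i => toU (D.B i)) w : AddMonoid.End (LM C K)) l.1, l.2) := rfl

theorem rho_gen (D : Dt C K hC n) (i : Fin n) (l : LM C K × ZMod 2) :
    rho D (1, FreeGroup.of i) l = (D.B i l.1, l.2) := by
  rw [rho_apply, map_one, rF_apply, FreeGroup.lift_apply_of]
  rfl

theorem rho_c (D : Dt C K hC n) (d : LL G × FreeGroup (Fin n)) : rho D d (0, 1) = (0, 1) := by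
  obtain ⟨s, w⟩ := d
  rw [rho_apply, rF_apply, rLL_apply]
  ext1
  · show mL s.right ((FreeGroup.lift (fun i => toU (D.B i)) w : AddMonoid.End (LM C K)) 0) = 0
    rw [map_zero, map_zero]
  · show 1 + prg K hC s.left.toAdd (mL s.right
      ((FreeGroup.lift (fun i => toU (D.B i)) w : AddMonoid.End (LM C K)) 0)) = 1
    rw [map_zero, map_zero, map_zero, add_zero]

/-- the first vector -/
def wv (C : Type) {G : Type} [CommRing C] [Group G] (K : Subgroup G) : LM C K :=
  ⟨(1, 0), by
    classical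
    intro v
    rw [MonoidAlgebra.one_def, sg_single]
    split_ifs
    · exact ⟨1, Int.cast_one⟩
    · exact ⟨0, Int.cast_zero⟩⟩

/-- the vector `(g - 1, 0)` -/
def vg (C : Type) {G : Type} [CommRing C] [Group G] (K : Subgroup G) (g : G) : LM C K :=
  mL g (wv C K) - wv C K

theorem vg_val (g : G) : (vg C K g : MonoidAlgebra C G × MonoidAlgebra C G) =
    (MonoidAlgebra.of C G g - 1, 0) := by
  show (MonoidAlgebra.of C G g * 1 - 1, MonoidAlgebra.of C G g * 0 - 0) = _
  rw [mul_one, mul_zero, sub_zero]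

/-- the inclusion of `G` -/
def inc (G : Type) [Group G] (n : ℕ) : G →* LL G × FreeGroup (Fin n) :=
  (MonoidHom.inl _ _).comp SemidirectProduct.inr

theorem inc_apply (g : G) : inc G n g = (SemidirectProduct.inr g, 1) := rfl

theorem rho_inc (D : Dt C K hC n) (g : G) :
    rho D (inc G n g) (wv C K, 0) - (wv C K, 0) = (vg C K g, 0) := by
  rw [inc_apply, rho_left]
  ext1
  · rfl
  · show (0 : ZMod 2) + prg K hC (Multiplicative.toAdd 1) (mL g (wv C K)) - 0 = 0
    rw [toAdd_one, map_zero, AddMonoidHom.zero_apply, add_zero, sub_zero]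

/-- the lamp at the origin -/
def lamp (G : Type) [Group G] (n : ℕ) : LL G × FreeGroup (Fin n) :=
  (⟨Multiplicative.ofAdd (Finsupp.single 1 1), 1⟩, 1)

theorem rho_lamp (D : Dt C K hC n) (l : LM C K) (z : ZMod 2) :
    rho D (lamp G n) (l, z) = (l, z + lam hC ((1 : G) : G ⧸ K) l) := by
  unfold lamp
  rw [rho_left]
  ext1
  · exact mL_one l
  · show z + prg K hC (Finsupp.single 1 1) (mL 1 l) = z + lam hC ((1 : G) : G ⧸ K) l
    rw [mL_one, prg_single, one_mul]

theorem lam_wv : lam hC ((1 : G) : G ⧸ K) (wv C K) = 1 := by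
  classical
  show par (sg K ((1 : G) : G ⧸ K) (1 : MonoidAlgebra C G)) = 1
  have e4 : sg K ((1 : G) : G ⧸ K) (1 : MonoidAlgebra C G) = ((1 : ℤ) : C) := by
    rw [MonoidAlgebra.one_def, sg_single, if_pos rfl, Int.cast_one]
  rw [e4, par_int hC]
  decide

theorem lam_vg {g : G} (hg : g ∉ K) : lam hC ((1 : G) : G ⧸ K) (vg C K g) = 1 := by
  classical
  show par (sg K ((1 : G) : G ⧸ K) (vg C K g).1.1) = 1
  rw [vg_val]
  have e4 : sg K ((1 : G) : G ⧸ K) (MonoidAlgebra.of C G g - 1) = ((-1 : ℤ) : C) := by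
    rw [map_sub, MonoidAlgebra.of_apply, MonoidAlgebra.one_def, sg_single, sg_single,
      if_neg, if_pos rfl]
    · simp
    · intro h
      apply hg
      have h5 := QuotientGroup.eq.1 h
      simpa using K.inv_mem h5
  show par (sg K ((1 : G) : G ⧸ K) (MonoidAlgebra.of C G g - 1)) = 1
  rw [e4, par_int hC]
  decide

end rho

end

end Pool.Agent.N14.CE
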