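import Pool.Agent.N14.CE.ModC

/-! # Project CE, part MOD: the families of automorphisms -/

set_option autoImplicit false

namespace Pool.Agent.N14.CE

open Pool.Agent.N513.CE

noncomputable section

section str

variable {R : Type} [Ring R] {e t x : R} {a g : (R × R) ≃+ (R × R)}

theorem str1 (h : Str R e t a g) (hx : x * e = x) : a (x, 0) = (0, x) := by
  rw [h.ha]
  simp only [mul_sub, mul_one, zero_mul, sub_zero, add_zero, hx, sub_self]

theorem str2 (h : Str R e t a g) (hx : x * e = x) : a (0, x) = (-x, -x) := by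
  rw [h.ha]
  simp only [mul_sub, mul_one, zero_mul, zero_sub, zero_add, hx, sub_self]

theorem str3 (h : Str R e t a g) (hx : x * e = x) : g (x, 0) = (x + x, 0) := by
  rw [h.hg]
  simp only [mul_add, mul_one, zero_mul, hx]

theorem str4 (h : Str R e t a g) (hx : x * e = x) (htc : t * x = x * t) (ht2 : t + t = 1) :
    g (0, x + x) = (0, x) := by
  rw [h.hg]
  have e1 : x * t + x * t = x := by rw [← mul_add, ht2, mul_one]
  have e2 : (x + x) * (1 - e * t) = x := by
    have e3 : (x + x) * (e * t) = x := by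
      rw [← mul_assoc, add_mul, hx, add_mul, e1]
    rw [mul_sub, mul_one, e3, add_sub_cancel_right]
  show (0 * (1 + e), (x + x) * (1 - e * t)) = (0, x)
  rw [e2, zero_mul]

end str

/-- a family of automorphisms -/
structure Fm (R : Type) [Ring R] (n : ℕ) where
  e : Fin n → R
  j : Fin n → Fin 2
  t : R
  a : Fin n → (R × R) ≃+ (R × R)
  g : Fin n → (R × R) ≃+ (R × R)
  h : ∀ i, Str R (e i) t (a i) (g i)

/-- the automorphisms -/
def Fm.A {R : Type} [Ring R] {n : ℕ} (F : Fm R n) (i : Fin n) : (R × R) ≃+ (R × R) :=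
  pick (F.a i) (F.g i) (F.j i)

theorem exFm (h1 : S_STR) {R : Type} [Ring R] {n : ℕ} (e : Fin n → R)
    (he : ∀ i, e i * e i = e i) (j : Fin n → Fin 2) (t : R) (htc : ∀ x, t * x = x * t)
    (ht2 : t + t = 1) : ∃ F : Fm R n, F.e = e ∧ F.j = j ∧ F.t = t := by
  have h : ∀ i, ∃ a g, Str R (e i) t a g := by
    intro i
    obtain ⟨a, g, ha, hg⟩ := h1 R (e i) t (he i) htc ht2
    exact ⟨a, g, ha, hg⟩
  choose a g hag using h
  exact ⟨⟨e, j, t, a, g, hag⟩, rfl, rfl, rfl⟩

section fmd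

variable {C G : Type} [CommRing C] [Group G] {K : Subgroup G}
variable {hC : Function.Injective (Int.cast : ℤ → C)} {n : ℕ}

/-- the data given by a family -/
def Fm.D (F : Fm (MonoidAlgebra C G) n) (hC : Function.Injective (Int.cast : ℤ → C))
    (hsg : ∀ i x (v : G ⧸ K), sg K v (F.A i x).1 = sg K v x.1) : Dt C K hC n where
  B i := res (F.A i) (hsg i)
  h1 i g' l := by
    apply Subtype.ext
    exact (pick_left (F.h i) _ (MonoidAlgebra.of C G g') l.1).symm
  h2 i v l := by
    show par (sg K v (F.A i l.1).1) = par (sg K v l.1.1)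
    rw [hsg]

/-- the stretching elements -/
theorem stretch (F : Fm (MonoidAlgebra C G) n)
    (hsg : ∀ i x (v : G ⧸ K), sg K v (F.A i x).1 = sg K v x.1)
    (htc : ∀ x, F.t * x = x * F.t) (ht2 : F.t + F.t = 1)
    {k : G} (hk : k ∈ K) {i0 i1 : Fin n} (hi0 : F.j i0 = 0) (hi1 : F.j i1 = 1)
    (he0 : (MonoidAlgebra.of C G k - 1) * F.e i0 = MonoidAlgebra.of C G k - 1)
    (he1 : (MonoidAlgebra.of C G k - 1) * F.e i1 = MonoidAlgebra.of C G k - 1) :
    ∃ (a g : LL G × FreeGroup (Fin n)) (m' : LM C K × ZMod 2),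
      rho (F.D hC hsg) a (vg C K k, 0) = m' ∧
      rho (F.D hC hsg) a m' = -((vg C K k, 0) + m') ∧
      rho (F.D hC hsg) g (vg C K k, 0) = (2 : ℤ) • (vg C K k, 0) ∧
      rho (F.D hC hsg) g ((2 : ℤ) • m') = m' := by
  have hA0 : F.A i0 = F.a i0 := by unfold Fm.A pick; rw [hi0, if_pos rfl]
  have hA1 : F.A i1 = F.g i1 := by unfold Fm.A pick; rw [hi1, if_neg (by decide)]
  have hm : ((0 : MonoidAlgebra C G), MonoidAlgebra.of C G k - 1) ∈ LM C K := by
    intro v
    exact ⟨0, by rw [Int.cast_zero]; exact (map_zero _).symm⟩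
  have hv0 : ((F.D hC hsg).B i0 (vg C K k) : MonoidAlgebra C G × MonoidAlgebra C G) =
      (0, MonoidAlgebra.of C G k - 1) := by
    show F.A i0 (vg C K k : MonoidAlgebra C G × MonoidAlgebra C G) = _
    rw [hA0, vg_val, str1 (F.h i0) he0]
  have hv1 : ((F.D hC hsg).B i0 ⟨_, hm⟩ : MonoidAlgebra C G × MonoidAlgebra C G) =
      (-(MonoidAlgebra.of C G k - 1), -(MonoidAlgebra.of C G k - 1)) := by
    show F.A i0 (0, MonoidAlgebra.of C G k - 1) = _
    rw [hA0, str2 (F.h i0) he0]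
  have hv2 : ((F.D hC hsg).B i1 (vg C K k) : MonoidAlgebra C G × MonoidAlgebra C G) =
      ((MonoidAlgebra.of C G k - 1) + (MonoidAlgebra.of C G k - 1), 0) := by
    show F.A i1 (vg C K k : MonoidAlgebra C G × MonoidAlgebra C G) = _
    rw [hA1, vg_val, str3 (F.h i1) he1]
  have hv3 : ∀ m : LM C K, (m : MonoidAlgebra C G × MonoidAlgebra C G) =
      (0, (MonoidAlgebra.of C G k - 1) + (MonoidAlgebra.of C G k - 1)) →
      ((F.D hC hsg).B i1 m : MonoidAlgebra C G × MonoidAlgebra C G) =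
      (0, MonoidAlgebra.of C G k - 1) := by
    intro m hm
    show F.A i1 (m : MonoidAlgebra C G × MonoidAlgebra C G) = _
    rw [hm, hA1, str4 (F.h i1) he1 (htc _) ht2]
  refine ⟨(1, FreeGroup.of i0), (1, FreeGroup.of i1), (⟨_, hm⟩, 0), ?_, ?_, ?_, ?_⟩
  · rw [rho_gen]
    exact Prod.ext (Subtype.ext hv0) rfl
  · rw [rho_gen]
    refine Prod.ext (Subtype.ext ?_) ?_
    · show ((F.D hC hsg).B i0 ⟨_, hm⟩ : MonoidAlgebra C G × MonoidAlgebra C G) =
        -((vg C K k : MonoidAlgebra C G × MonoidAlgebra C G) + (0, MonoidAlgebra.of C G k - 1))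
      rw [hv1, vg_val]
      refine Prod.ext ?_ ?_
      · show -_ = -(_ + 0)
        rw [add_zero]
      · show -_ = -(0 + _)
        rw [zero_add]
    · show (0 : ZMod 2) = -(0 + 0)
      decide
  · rw [rho_gen]
    refine Prod.ext (Subtype.ext ?_) ?_
    · show ((F.D hC hsg).B i1 (vg C K k) : MonoidAlgebra C G × MonoidAlgebra C G) =
        ((2 : ℤ) • vg C K k : LM C K)
      rw [hv2, two_zsmul]
      show _ = (vg C K k : MonoidAlgebra C G × MonoidAlgebra C G) + vg C K k
      rw [vg_val]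
      refine Prod.ext rfl ?_
      show (0 : MonoidAlgebra C G) = 0 + 0
      rw [add_zero]
    · show (0 : ZMod 2) = (2 : ℤ) • 0
      rw [smul_zero]
  · rw [rho_gen]
    refine Prod.ext (Subtype.ext ?_) ?_
    · refine hv3 _ ?_
      show (((2 : ℤ) • (⟨_, hm⟩ : LM C K) : LM C K) : MonoidAlgebra C G × MonoidAlgebra C G) = _
      rw [two_zsmul]
      show ((0 : MonoidAlgebra C G) + 0, _) = _
      rw [add_zero]
    · show (2 : ℤ) • (0 : ZMod 2) = 0
      rw [smul_zero]

end fmd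

end

end Pool.Agent.N14.CE
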