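import Pool.Agent.N14.CE.ModD

/-! # Project CE, part MOD: finite quotients of the module -/

set_option autoImplicit false

namespace Pool.Agent.N14.CE

open Pool.Agent.N513.CE

noncomputable section

section rfm

variable {C C' G Q : Type} [CommRing C] [CommRing C'] [Group G] [Group Q] {K : Subgroup G}
variable {hC : Function.Injective (Int.cast : ℤ → C)} {n : ℕ}

theorem fin_ma [Finite C'] [Finite Q] : Finite (MonoidAlgebra C' Q) := by
  have : Finite (Q →₀ C') :=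
    Finite.of_injective (fun f : Q →₀ C' => (f : Q → C')) DFunLike.coe_injective
  exact Finite.of_injective _ (MonoidAlgebra.coeff_injective (R := C') (M := Q))

/-- the target: the action of the free group -/
def tF (F' : Fm (MonoidAlgebra C' Q) n) :
    FreeGroup (Fin n) →* AddMonoid.End (MonoidAlgebra C' Q × MonoidAlgebra C' Q) :=
  (autF (MonoidAlgebra C' Q × MonoidAlgebra C' Q)).comp (FreeGroup.lift fun i => toU (F'.A i))

/-- the target: the action of the lamplighter group -/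
def tL (C' : Type) [CommRing C'] (π : G →* Q) :
    LL G →* AddMonoid.End (MonoidAlgebra C' Q × MonoidAlgebra C' Q) :=
  (mR C' Q).comp (π.comp SemidirectProduct.rightHom)

theorem t_comm (F' : Fm (MonoidAlgebra C' Q) n) (π : G →* Q) (s : LL G)
    (w : FreeGroup (Fin n)) : Commute (tL C' π s) (tF F' w) := by
  refine comm_R F'.A ?_ _ w
  intro i q l
  exact (pick_left (F'.h i) _ (MonoidAlgebra.of C' Q q) l).symm

/-- the target -/
def tau (F' : Fm (MonoidAlgebra C' Q) n) (π : G →* Q) :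
    LL G × FreeGroup (Fin n) →* AddMonoid.End (MonoidAlgebra C' Q × MonoidAlgebra C' Q) :=
  MonoidHom.noncommCoprod (tL C' π) (tF F') (t_comm F' π)

theorem tau_apply (F' : Fm (MonoidAlgebra C' Q) n) (π : G →* Q) (s : LL G)
    (w : FreeGroup (Fin n)) (l : MonoidAlgebra C' Q × MonoidAlgebra C' Q) :
    tau F' π (s, w) l = mR C' Q (π s.right)
      ((FreeGroup.lift (fun i => toU (F'.A i)) w : AddMonoid.End _) l) := by
  unfold tau
  rw [MonoidHom.noncommCoprod_apply]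
  rfl

/-- the map -/
def f0 (K : Subgroup G) (γ : C →+* C') (π : G →* Q) :
    LM C K →+ (MonoidAlgebra C' Q × MonoidAlgebra C' Q) :=
  (AddMonoidHom.prodMap (rmap γ π).toAddMonoidHom (rmap γ π).toAddMonoidHom).comp
    (LM C K).subtype

theorem f0_apply (γ : C →+* C') (π : G →* Q) (l : LM C K) :
    f0 K γ π l = (rmap γ π l.1.1, rmap γ π l.1.2) := rfl

theorem f0_mL (γ : C →+* C') (π : G →* Q) (g : G) (l : LM C K) :
    f0 K γ π (mL g l) = mR C' Q (π g) (f0 K γ π l) := by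
  rw [f0_apply, f0_apply]
  show (rmap γ π (MonoidAlgebra.of C G g * l.1.1), rmap γ π (MonoidAlgebra.of C G g * l.1.2)) =
    (MonoidAlgebra.of C' Q (π g) * rmap γ π l.1.1, MonoidAlgebra.of C' Q (π g) * rmap γ π l.1.2)
  rw [map_mul, map_mul, rmap_of]

theorem f0_F (γ : C →+* C') (π : G →* Q) (F : Fm (MonoidAlgebra C G) n)
    (hsg : ∀ i x (v : G ⧸ K), sg K v (F.A i x).1 = sg K v x.1)
    (F' : Fm (MonoidAlgebra C' Q) n) (he : ∀ i, F'.e i = rmap γ π (F.e i))
    (ht : F'.t = rmap γ π F.t) (hj : F'.j = F.j) (w : FreeGroup (Fin n)) (l : LM C K) :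
    f0 K γ π ((FreeGroup.lift (fun i => toU ((F.D hC hsg).B i)) w : AddMonoid.End _) l) =
      (FreeGroup.lift (fun i => toU (F'.A i)) w : AddMonoid.End _) (f0 K γ π l) := by
  refine inter (FreeGroup.lift fun i => toU ((F.D hC hsg).B i))
    (FreeGroup.lift fun i => toU (F'.A i)) (f0 K γ π) ?_ w l
  intro i l
  rw [FreeGroup.lift_apply_of, FreeGroup.lift_apply_of]
  have h' : Str (MonoidAlgebra C' Q) (rmap γ π (F.e i)) (rmap γ π F.t) (F'.a i) (F'.g i) := by
    rw [← he, ← ht]; exact F'.h i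
  have h3 := pick_map (rmap γ π) (F.h i) h' (F.j i) l.1
  rw [f0_apply, f0_apply]
  have h4 : F'.A i = pick (F'.a i) (F'.g i) (F.j i) := by
    unfold Fm.A
    rw [hj]
  show (rmap γ π (F.A i l.1).1, rmap γ π (F.A i l.1).2) = F'.A i (rmap γ π l.1.1, rmap γ π l.1.2)
  rw [h4]
  exact h3

theorem rf_mod [Finite C'] [Finite Q] (γ : C →+* C') (π : G →* Q) (F : Fm (MonoidAlgebra C G) n)
    (hsg : ∀ i x (v : G ⧸ K), sg K v (F.A i x).1 = sg K v x.1)
    (F' : Fm (MonoidAlgebra C' Q) n) (he : ∀ i, F'.e i = rmap γ π (F.e i))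
    (ht : F'.t = rmap γ π F.t) (hj : F'.j = F.j) (l : LM C K × ZMod 2)
    (hl : rmap γ π l.1.1.1 ≠ 0 ∨ rmap γ π l.1.1.2 ≠ 0) :
    ∃ (E : Type) (_ : AddCommGroup E) (_ : Finite E)
      (τ : LL G × FreeGroup (Fin n) →* AddMonoid.End E) (f : LM C K × ZMod 2 →+ E),
      (∀ d l, f (rho (F.D hC hsg) d l) = τ d (f l)) ∧ f (0, 1) = 0 ∧ f l ≠ 0 := by
  have hfin : Finite (MonoidAlgebra C' Q) := fin_ma
  refine ⟨MonoidAlgebra C' Q × MonoidAlgebra C' Q, inferInstance, inferInstance, tau F' π,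
    (f0 K γ π).comp (AddMonoidHom.fst _ _), ?_, ?_, ?_⟩
  · rintro ⟨s, w⟩ l
    rw [tau_apply, rho_apply, rF_apply, rLL_apply]
    show f0 K γ π (mL s.right
      ((FreeGroup.lift (fun i => toU ((F.D hC hsg).B i)) w : AddMonoid.End _) l.1)) =
      mR C' Q (π s.right)
        ((FreeGroup.lift (fun i => toU (F'.A i)) w : AddMonoid.End _) (f0 K γ π l.1))
    rw [f0_mL, f0_F γ π F hsg F' he ht hj]
  · exact map_zero (f0 K γ π)
  · intro h0
    have h1 : f0 K γ π l.1 = 0 := h0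
    rw [f0_apply] at h1
    rcases hl with hl | hl
    · exact hl (congrArg Prod.fst h1)
    · exact hl (congrArg Prod.snd h1)

end rfm

/-- finding the finite quotient -/
theorem exq {C G : Type} {ι : Type} {c : ι → Type} [CommRing C] [Group G]
    [∀ i, CommRing (c i)] (γ : ∀ i, C →+* c i) (hγ : ∀ x : C, x ≠ 0 → ∃ i, γ i x ≠ 0)
    (hRF : RF G) (x y : MonoidAlgebra C G) (hxy : x ≠ 0 ∨ y ≠ 0) :
    ∃ (i : ι) (Q : Type) (_ : Group Q) (_ : Finite Q) (π : G →* Q),
      rmap (γ i) π x ≠ 0 ∨ rmap (γ i) π y ≠ 0 := by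
  classical
  have key : ∀ x : MonoidAlgebra C G, x ≠ 0 →
      ∃ (i : ι) (Q : Type) (_ : Group Q) (_ : Finite Q) (π : G →* Q), rmap (γ i) π x ≠ 0 := by
    intro x hx0
    obtain ⟨Q, i1, i2, π, hπ⟩ := hRF x.coeff.support
    have h3 : x.coeff ≠ 0 := fun h => hx0 (MonoidAlgebra.coeff_eq_zero.1 h)
    obtain ⟨g0, hg0⟩ := Finsupp.ne_iff.1 h3
    obtain ⟨n, hn⟩ := hγ _ hg0
    refine ⟨n, Q, i1, i2, π, fun h0 => hn ?_⟩
    have h4 := rmap_coeff (γ n) π x hπ (d := g0) (Finsupp.mem_support_iff.2 hg0)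
    rw [h0] at h4
    exact h4.symm
  rcases hxy with h | h
  · obtain ⟨i, Q, i1, i2, π, h⟩ := key _ h
    exact ⟨i, Q, i1, i2, π, Or.inl h⟩
  · obtain ⟨i, Q, i1, i2, π, h⟩ := key _ h
    exact ⟨i, Q, i1, i2, π, Or.inr h⟩

theorem rmap_algebraMap {C C' G Q : Type} [CommRing C] [CommRing C'] [Group G] [Group Q]
    (γ : C →+* C') (π : G →* Q) (c : C) :
    rmap γ π (algebraMap C (MonoidAlgebra C G) c) = algebraMap C' (MonoidAlgebra C' Q) (γ c) := by
  show MonoidAlgebra.mapDomainRingHom _ π (MonoidAlgebra.mapRingHom G γ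
    (MonoidAlgebra.single 1 c)) = MonoidAlgebra.single 1 (γ c)
  rw [MonoidAlgebra.mapRingHom_single]
  simp

/-- everything, for an abstract coefficient ring -/
theorem mod_abs (h1 : S_STR) (h2 : S_LRF) {C : Type} [CommRing C]
    (hC : Function.Injective (Int.cast : ℤ → C)) {c : ℕ → Type} [∀ i, CommRing (c i)]
    [∀ i, Finite (c i)] (γ : ∀ i, C →+* c i) (hγ : ∀ x : C, x ≠ 0 → ∃ i, γ i x ≠ 0)
    {G : Type} [Group G] (K : Subgroup G) (p : ℕ) (b t : C) (hb : (p : C) * b = 1)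
    (htt : t + t = 1) (hRF : RF G) (hFG : Group.FG G) (n : ℕ) (k : Fin n → G) (j : Fin n → Fin 2)
    (hkp : ∀ i, k i ^ p = 1) (hkK : ∀ i, k i ∈ K) :
    ∃ (D L : Type) (_ : Group D) (_ : AddCommGroup L) (ρ : D →* AddMonoid.End L) (w c : L)
      (i : G →* D),
      RF D ∧ Group.FG D ∧ (∀ d, ρ d c = c) ∧ c + c = 0 ∧ c ≠ 0 ∧
      (∀ l : L, l ≠ 0 → l ≠ c → ∃ (E : Type) (_ : AddCommGroup E) (_ : Finite E)
        (τ : D →* AddMonoid.End E) (f : L →+ E), (∀ d l, f (ρ d l) = τ d (f l)) ∧ f c = 0 ∧ f l ≠ 0) ∧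
      (∀ x : G, (∃ i0, k i0 = x ∧ j i0 = 0) → (∃ i1, k i1 = x ∧ j i1 = 1) →
        ∃ (a g : D) (m' : L), ρ a (ρ (i x) w - w) = m' ∧
        ρ a m' = -((ρ (i x) w - w) + m') ∧ ρ g (ρ (i x) w - w) = (2 : ℤ) • (ρ (i x) w - w) ∧
        ρ g ((2 : ℤ) • m') = m') ∧
      (∀ g, g ∉ K → ∃ y : D, ρ y (ρ (i g) w - w) = ρ (i g) w - w + c) ∧
      ∃ y : D, ρ y w = w + c := by
  have htc : ∀ x, algebraMap C (MonoidAlgebra C G) t * x = x * algebraMap C (MonoidAlgebra C G) t :=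
    fun x => Algebra.commutes _ _
  have ht2 : algebraMap C (MonoidAlgebra C G) t + algebraMap C (MonoidAlgebra C G) t = 1 := by
    rw [← map_add, htt, map_one]
  obtain ⟨F, hFe, hFj, hFt⟩ := exFm h1 (fun i => idem C p b (k i))
    (fun i => idem_mul_idem hb (hkp i)) j (algebraMap C (MonoidAlgebra C G) t) htc ht2
  have hsg : ∀ i x (v : G ⧸ K), sg K v (F.A i x).1 = sg K v x.1 := by
    intro i x v
    have h := F.h i
    rw [hFe] at h
    exact pick_sg hb (hkK i) h _ x v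
  refine ⟨LL G × FreeGroup (Fin n), LM C K × ZMod 2, inferInstance, inferInstance,
    rho (F.D hC hsg), (wv C K, 0), (0, 1), inc G n, (h2 G n hRF hFG).1, (h2 G n hRF hFG).2,
    rho_c _, ?_, ?_, ?_, ?_, ?_, ?_⟩
  · refine Prod.ext (add_zero _) ?_
    show (1 : ZMod 2) + 1 = 0
    decide
  · intro h
    have h' : (1 : ZMod 2) = 0 := congrArg Prod.snd h
    revert h'
    decide
  · intro l hl0 hlc
    have hx : l.1.1.1 ≠ 0 ∨ l.1.1.2 ≠ 0 := by
      by_contra hcon
      push Not at hcon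
      have e1 : l.1 = 0 := Subtype.ext (Prod.ext hcon.1 hcon.2)
      rcases zmod2 l.2 with e2 | e2
      · exact hl0 (Prod.ext e1 e2)
      · exact hlc (Prod.ext e1 e2)
    obtain ⟨i, Q, i1, i2, π, hπ⟩ := exq γ hγ hRF _ _ hx
    have htc' : ∀ x, rmap (γ i) π (algebraMap C (MonoidAlgebra C G) t) * x =
        x * rmap (γ i) π (algebraMap C (MonoidAlgebra C G) t) := by
      intro x
      rw [rmap_algebraMap]
      exact Algebra.commutes _ _
    obtain ⟨F', hFe', hFj', hFt'⟩ := exFm h1 (fun i' => rmap (γ i) π (idem C p b (k i')))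
      (fun i' => by rw [← map_mul, idem_mul_idem hb (hkp i')]) j
      (rmap (γ i) π (algebraMap C (MonoidAlgebra C G) t)) htc'
      (by rw [← map_add, ht2, map_one])
    exact rf_mod (γ i) π F hsg F' (fun i' => by rw [hFe', hFe]) (by rw [hFt', hFt])
      (by rw [hFj', hFj]) l hπ
  · rintro x ⟨i0, hi0, hj0⟩ ⟨i1, hi1, hj1⟩
    have hxK : x ∈ K := by rw [← hi0]; exact hkK i0
    have hxp : x ^ p = 1 := by rw [← hi0]; exact hkp i0
    rw [rho_inc]
    refine stretch F hsg (by rw [hFt]; exact htc) (by rw [hFt]; exact ht2) hxK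
      (by rw [hFj]; exact hj0) (by rw [hFj]; exact hj1) ?_ ?_
    · rw [hFe]
      show (_ - 1) * idem C p b (k i0) = _
      rw [hi0]
      exact sub_mul_idem b hxp
    · rw [hFe]
      show (_ - 1) * idem C p b (k i1) = _
      rw [hi1]
      exact sub_mul_idem b hxp
  · intro g hg
    refine ⟨lamp G n, ?_⟩
    rw [rho_inc, rho_lamp, lam_vg hg, Prod.mk_add_mk, add_zero]
  · refine ⟨lamp G n, ?_⟩
    rw [rho_lamp, lam_wv, Prod.mk_add_mk, add_zero]

end

end Pool.Agent.N14.CE
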